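import Pool.Agent.H90.QE.Base
import Pool.Agent.H71.K3.Zeros

/-! # QE.Curve : the Fano variety `T^2 + T (x^3 - 48 A(s) x + 864 B(s) - y^2) + 256 D(s) = 0` and Roitman's curve through a point of it (complete)

`deg A ≤ 4`, `deg B ≤ 6`, `deg D ≤ 12`: degree `12` in `ℙ(1,1,2,3,6)`.  `12` unknowns: `s` linear, `x`, `y`, `T` of degrees `2`, `3`, `6` in the
parameter, `11` equations (coefficients `1` to `11`). -/

namespace H90.QE

open Polynomial
open H71.K3 (exists_zero)

section curve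
variable {k : Type} [Field k] {A B : Type} [CommRing A] [Algebra k A] [CommRing B] [Algebra k B]

/-- the equation -/
noncomputable def FF (pA pB pD : k[X]) (s x y T : A) : A :=
  T ^ 2 + T * (x ^ 3 - 48 * aeval s pA * x + 864 * aeval s pB - y ^ 2) + 256 * aeval s pD

theorem FF_map (f : A →ₐ[k] B) (pA pB pD : k[X]) (s x y T : A) :
    f (FF pA pB pD s x y T) = FF pA pB pD (f s) (f x) (f y) (f T) := by
  unfold FF
  simp only [map_add, map_mul, map_sub, map_pow, map_ofNat, aeval_algHom_apply]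

theorem aeval_deg {F : Type} [Field F] [Algebra k F] {s : F[X]} (hs : s.natDegree ≤ 1) {p : k[X]} {n : ℕ}
    (hp : p.natDegree ≤ n) : (aeval s p).natDegree ≤ n := by
  rw [aeval_eq_sum_range' (Nat.lt_succ_of_le hp)]
  refine natDegree_sum_le_of_forall_le _ _ fun i hi => ?_
  refine (natDegree_smul_le _ _).trans ?_
  refine natDegree_pow_le.trans ?_
  have h1 : i ≤ n := Nat.le_of_lt_succ (Finset.mem_range.1 hi)
  calc i * s.natDegree ≤ i * 1 := Nat.mul_le_mul_left i hs
    _ ≤ n := by rw [mul_one]; exact h1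

theorem FF_deg {F : Type} [Field F] [Algebra k F] {pA pB pD : k[X]} (hA : pA.natDegree ≤ 4) (hB : pB.natDegree ≤ 6)
    (hD : pD.natDegree ≤ 12) {s x y T : F[X]} (hs : s.natDegree ≤ 1) (hx : x.natDegree ≤ 2) (hy : y.natDegree ≤ 3)
    (hT : T.natDegree ≤ 6) : (FF pA pB pD s x y T).natDegree ≤ 12 := by
  have hn : ∀ (m n : ℕ) [m.AtLeastTwo] (p : F[X]), p.natDegree ≤ n → ((OfNat.ofNat m : F[X]) * p).natDegree ≤ n := by
    intro m n _ p hp
    refine natDegree_mul_le.trans ?_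
    have e : (OfNat.ofNat m : F[X]) = C (OfNat.ofNat m : F) := by rw [map_ofNat]
    rw [e, natDegree_C, zero_add]
    exact hp
  have hpow : ∀ (p : F[X]) (m n : ℕ), p.natDegree ≤ n → (p ^ m).natDegree ≤ m * n := fun p m n hp =>
    natDegree_pow_le.trans (Nat.mul_le_mul_left m hp)
  have hm : ∀ (p q : F[X]) (m n : ℕ), p.natDegree ≤ m → q.natDegree ≤ n → (p * q).natDegree ≤ m + n :=
    fun p q m n hp hq => natDegree_mul_le.trans (add_le_add hp hq)
  have h1 : (48 * aeval s pA * x).natDegree ≤ 6 := hm _ _ 4 2 (hn 48 4 _ (aeval_deg hs hA)) hx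
  have h2 : (864 * aeval s pB).natDegree ≤ 6 := hn 864 6 _ (aeval_deg hs hB)
  have h3 : (256 * aeval s pD).natDegree ≤ 12 := hn 256 12 _ (aeval_deg hs hD)
  have h4 : (x ^ 3 - 48 * aeval s pA * x + 864 * aeval s pB - y ^ 2).natDegree ≤ 6 := by
    refine (natDegree_sub_le _ _).trans (max_le ((natDegree_add_le _ _).trans (max_le
      ((natDegree_sub_le _ _).trans (max_le (hpow x 3 2 hx) h1)) h2)) (hpow y 2 3 hy))
  unfold FF
  exact (natDegree_add_le _ _).trans (max_le ((natDegree_add_le _ _).trans (max_le (hpow T 2 6 hT) (hm _ _ 6 6 hT h4))) h3)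

/-- a polynomial with given constant coefficient and given other coefficients -/
private noncomputable def cvp (n : ℕ) (c : k) (u : Fin n → A) : A[X] :=
  C (algebraMap k A c) + ∑ i : Fin n, C (u i) * X ^ ((i : ℕ) + 1)

private theorem cvp_map (f : A →ₐ[k] B) (n : ℕ) (c : k) (u : Fin n → A) :
    Polynomial.mapAlgHom f (cvp n c u) = cvp n c (fun i => f (u i)) := by
  unfold cvp
  rw [map_add, map_sum, Polynomial.coe_mapAlgHom]
  congr 1
  · rw [Polynomial.map_C]
    congr 1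
    exact f.commutes c
  · refine Finset.sum_congr rfl fun i _ => ?_
    rw [Polynomial.map_mul, Polynomial.map_C, Polynomial.map_pow, Polynomial.map_X]
    rfl

private theorem cvp_zero (n : ℕ) (c : k) : cvp n c (fun _ => (0 : A)) = C (algebraMap k A c) := by
  unfold cvp
  simp

private theorem cvp_deg (n : ℕ) (c : k) (u : Fin n → A) : (cvp n c u).natDegree ≤ n := by
  unfold cvp
  refine natDegree_add_le_of_degree_le ?_ ?_
  · rw [natDegree_C]
    exact Nat.zero_le _
  · refine natDegree_sum_le_of_forall_le _ _ fun i _ => ?_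
    exact (natDegree_C_mul_X_pow_le _ _).trans i.2

private theorem cvp_coeff (n : ℕ) (c : k) (u : Fin n → A) (j : Fin n) :
    (cvp n c u).coeff ((j : ℕ) + 1) = u j := by
  unfold cvp
  rw [coeff_add, coeff_C, if_neg (Nat.succ_ne_zero _), zero_add, finsetSum_coeff,
    Finset.sum_eq_single j]
  · rw [coeff_C_mul, coeff_X_pow, if_pos rfl, mul_one]
  · intro i _ hij
    rw [coeff_C_mul, coeff_X_pow, if_neg, mul_zero]
    intro h
    exact hij (Fin.ext (by omega))
  · intro h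
    exact absurd (Finset.mem_univ j) h

private theorem cvp_eval (n : ℕ) (c : k) (u : Fin n → k) : (cvp n c u).eval 0 = c := by
  unfold cvp
  rw [eval_add, eval_C, eval_finsetSum, Finset.sum_eq_zero, add_zero]
  · rfl
  · intro i _
    rw [eval_mul, eval_pow, eval_X, zero_pow (Nat.succ_ne_zero _), mul_zero]

private theorem cvp_const (n : ℕ) (c : k) (u : Fin n → k) (h : cvp n c u = C c) (j : Fin n) :
    u j = 0 := by
  rw [← cvp_coeff n c u j, h, coeff_C, if_neg (Nat.succ_ne_zero _)]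

/-- the polynomial `FF` of the curve with given parameters -/
private noncomputable def cvG (pA pB pD : k[X]) (s0 x0 y0 T0 : k) (v : Fin 12 → A) : A[X] :=
  FF pA pB pD (cvp 1 s0 (fun _ => v 0))
    (cvp 2 x0 (fun i => v ⟨1 + i, by omega⟩)) (cvp 3 y0 (fun i => v ⟨3 + i, by omega⟩))
    (cvp 6 T0 (fun i => v ⟨6 + i, by omega⟩))

private theorem cvG_map (pA pB pD : k[X]) (s0 x0 y0 T0 : k) (f : A →ₐ[k] B) (v : Fin 12 → A) :
    Polynomial.mapAlgHom f (cvG pA pB pD s0 x0 y0 T0 v) = cvG pA pB pD s0 x0 y0 T0 (fun i => f (v i)) := by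
  unfold cvG
  rw [FF_map, cvp_map, cvp_map, cvp_map, cvp_map]

private theorem cvG_zero (pA pB pD : k[X]) (s0 x0 y0 T0 : k) (j : ℕ) :
    (cvG pA pB pD s0 x0 y0 T0 (fun _ => (0 : k))).coeff (j + 1) = 0 := by
  unfold cvG
  rw [cvp_zero, cvp_zero, cvp_zero, cvp_zero]
  have h := FF_map (Polynomial.CAlgHom : k →ₐ[k] k[X]) pA pB pD s0 x0 y0 T0
  change _ = FF pA pB pD (C s0) (C x0) (C y0) (C T0) at h
  change (FF pA pB pD (C s0) (C x0) (C y0) (C T0)).coeff (j + 1) = 0
  rw [← h]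
  exact coeff_C_succ

private theorem cvG_coeff (pA pB pD : k[X]) (s0 x0 y0 T0 : k) (v : Fin 12 → k) (j : ℕ) :
    MvPolynomial.eval v ((cvG pA pB pD s0 x0 y0 T0 (fun i => (MvPolynomial.X i : MvPolynomial (Fin 12) k))).coeff j) =
      (cvG pA pB pD s0 x0 y0 T0 v).coeff j := by
  have h := cvG_map pA pB pD s0 x0 y0 T0 (MvPolynomial.aeval v : MvPolynomial (Fin 12) k →ₐ[k] k)
    (fun i => MvPolynomial.X i)
  have h1 : (fun i => (MvPolynomial.aeval v : MvPolynomial (Fin 12) k →ₐ[k] k)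
      (MvPolynomial.X i)) = v := by
    funext i
    rw [MvPolynomial.aeval_X]
  rw [h1] at h
  rw [← h, Polynomial.coe_mapAlgHom, Polynomial.coeff_map]
  rfl

end curve

variable {k : Type} [Field k] [IsAlgClosed k]

theorem curve_exists {pA pB pD : k[X]} (hA : pA.natDegree ≤ 4) (hB : pB.natDegree ≤ 6) (hD : pD.natDegree ≤ 12)
    {s0 x0 y0 T0 : k} (hw : FF pA pB pD s0 x0 y0 T0 = 0) :
    ∃ (a1 c : k) (x y T : k[X]), x.natDegree ≤ 2 ∧ y.natDegree ≤ 3 ∧ T.natDegree ≤ 6 ∧
      x.eval 0 = x0 ∧ y.eval 0 = y0 ∧ T.eval 0 = T0 ∧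
      ¬(a1 = 0 ∧ x = C x0 ∧ y = C y0 ∧ T = C T0) ∧
      FF pA pB pD (C s0 + C a1 * X) x y T = C c * X ^ 12 := by
  obtain ⟨v, hv, hv0⟩ := exists_zero (k := k) (n := 11) (m := 12) (by norm_num)
    (fun i => (cvG pA pB pD s0 x0 y0 T0 (fun i => (MvPolynomial.X i : MvPolynomial (Fin 12) k))).coeff
      ((i : ℕ) + 1)) (fun i => by
        have h := cvG_coeff pA pB pD s0 x0 y0 T0 (0 : Fin 12 → k) ((i : ℕ) + 1)
        rw [h]
        exact cvG_zero pA pB pD s0 x0 y0 T0 i)
  refine ⟨v 0, (cvG pA pB pD s0 x0 y0 T0 v).coeff 12, cvp 2 x0 (fun i => v ⟨1 + i, by omega⟩),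
    cvp 3 y0 (fun i => v ⟨3 + i, by omega⟩), cvp 6 T0 (fun i => v ⟨6 + i, by omega⟩),
    cvp_deg _ _ _, cvp_deg _ _ _, cvp_deg _ _ _, cvp_eval _ _ _, cvp_eval _ _ _, cvp_eval _ _ _, ?_, ?_⟩
  · rintro ⟨h0, hx, hy, hT⟩
    apply hv
    funext j
    have hx' := cvp_const _ _ _ hx
    have hy' := cvp_const _ _ _ hy
    have hT' := cvp_const _ _ _ hT
    obtain ⟨j, hj⟩ := j
    by_cases j0 : j = 0
    · subst j0
      exact h0
    by_cases j2 : j < 3
    · have h := hx' ⟨j - 1, by omega⟩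
      have e : (⟨1 + (j - 1), by omega⟩ : Fin 12) = ⟨j, hj⟩ := Fin.ext (by simp; omega)
      rw [← e]
      exact h
    by_cases j3 : j < 6
    · have h := hy' ⟨j - 3, by omega⟩
      have e : (⟨3 + (j - 3), by omega⟩ : Fin 12) = ⟨j, hj⟩ := Fin.ext (by simp; omega)
      rw [← e]
      exact h
    · have h := hT' ⟨j - 6, by omega⟩
      have e : (⟨6 + (j - 6), by omega⟩ : Fin 12) = ⟨j, hj⟩ := Fin.ext (by simp; omega)
      rw [← e]
      exact h
  · have e1 : cvp 1 s0 (fun _ => v 0) = C s0 + C (v 0) * X := by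
      unfold cvp
      simp
    rw [← e1]
    change cvG pA pB pD s0 x0 y0 T0 v = C ((cvG pA pB pD s0 x0 y0 T0 v).coeff 12) * X ^ 12
    have hdeg : (cvG pA pB pD s0 x0 y0 T0 v).natDegree ≤ 12 :=
      FF_deg hA hB hD (cvp_deg _ _ _) (cvp_deg _ _ _) (cvp_deg _ _ _) (cvp_deg _ _ _)
    have hc0 : (cvG pA pB pD s0 x0 y0 T0 v).coeff 0 = 0 := by
      rw [coeff_zero_eq_eval_zero]
      have h := FF_map (Polynomial.aeval (0 : k) : k[X] →ₐ[k] k) pA pB pD
        (cvp 1 s0 (fun _ => v 0))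
        (cvp 2 x0 (fun i => v ⟨1 + i, by omega⟩)) (cvp 3 y0 (fun i => v ⟨3 + i, by omega⟩))
        (cvp 6 T0 (fun i => v ⟨6 + i, by omega⟩))
      simp only [Polynomial.coe_aeval_eq_eval, cvp_eval] at h
      rw [hw] at h
      exact h
    ext n
    rw [coeff_C_mul, coeff_X_pow]
    by_cases hn : n = 12
    · subst hn
      rw [if_pos rfl, mul_one]
    · rw [if_neg hn, mul_zero]
      rcases Nat.lt_or_ge 12 n with h | h
      · exact coeff_eq_zero_of_natDegree_lt (lt_of_le_of_lt hdeg h)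
      · rcases Nat.eq_zero_or_pos n with h2 | h2
        · subst h2
          exact hc0
        · have h3 := hv0 ⟨n - 1, by omega⟩
          have h4 := cvG_coeff pA pB pD s0 x0 y0 T0 v (n - 1 + 1)
          rw [Nat.sub_add_cancel h2] at h4
          rw [← h4]
          have h5 : ((⟨n - 1, by omega⟩ : Fin 11) : ℕ) + 1 = n := by
            show n - 1 + 1 = n
            omega
          simp only [h5] at h3
          exact h3

end H90.QE
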